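import Pool.Agent.H500.R2.Stm

set_option autoImplicit false
set_option linter.unusedSectionVars false

/-!
# Dihedral residual representations
-/

namespace Pool.Agent.H297.R2.Dih

open NumberField IsDedekindDomain Filter Topology
open Pool.Agent.W401.Cheb (GK IsFrob IsInert dens)
open Pool.Agent.H500.MW (PosUD)
open Pool.Agent.H500.R2

section

variable {K E : Type} [Field K] [NumberField K] [Field E] [NumberField E]

theorem coprime_norm {lam : HeightOneSpectrum (𝓞 E)} {n : ℕ} (h : (n : 𝓞 E) ∉ lam.asIdeal) :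
    Nat.Coprime (Ideal.absNorm lam.asIdeal) n := by
  have hmax := lam.isMaximal
  let _ : Field (𝓞 E ⧸ lam.asIdeal) := Ideal.Quotient.field lam.asIdeal
  have h0 : Ideal.absNorm lam.asIdeal ≠ 0 := by
    rw [ne_eq, Ideal.absNorm_eq_zero_iff]
    exact lam.ne_bot
  have hcard : Ideal.absNorm lam.asIdeal = Nat.card (𝓞 E ⧸ lam.asIdeal) := by
    rw [Ideal.absNorm_apply, Submodule.cardQuot_apply]
  have hfin : Finite (𝓞 E ⧸ lam.asIdeal) := Nat.finite_of_card_ne_zero (by rwa [← hcard])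
  let _ : Fintype (𝓞 E ⧸ lam.asIdeal) := Fintype.ofFinite _
  obtain ⟨p, hp⟩ := CharP.exists (𝓞 E ⧸ lam.asIdeal)
  obtain ⟨f, hpp, hf⟩ := FiniteField.card (𝓞 E ⧸ lam.asIdeal) p
  rw [hcard, Nat.card_eq_fintype_card, hf]
  apply Nat.Coprime.pow_left
  rw [hpp.coprime_iff_not_dvd]
  intro hd
  apply h
  rw [← Ideal.Quotient.eq_zero_iff_mem, map_natCast]
  exact (CharP.cast_eq_zero_iff (𝓞 E ⧸ lam.asIdeal) p n).2 hd

theorem norm_mem_symm {v : HeightOneSpectrum (𝓞 K)} {lam : HeightOneSpectrum (𝓞 E)}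
    (h : ((Ideal.absNorm lam.asIdeal : ℕ) : 𝓞 K) ∈ v.asIdeal) :
    ((Ideal.absNorm v.asIdeal : ℕ) : 𝓞 E) ∈ lam.asIdeal := by
  by_contra hn
  have h1 := coprime_norm hn
  rw [← Nat.isCoprime_iff_coprime] at h1
  obtain ⟨s, t, hst⟩ := h1
  apply v.isPrime.ne_top
  rw [Ideal.eq_top_iff_one]
  have h2 : (1 : 𝓞 K) = (s : 𝓞 K) * ((Ideal.absNorm lam.asIdeal : ℕ) : 𝓞 K) +
      (t : 𝓞 K) * ((Ideal.absNorm v.asIdeal : ℕ) : 𝓞 K) := by
    have h3 := congrArg (Int.cast : ℤ → 𝓞 K) hst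
    push_cast at h3
    exact h3.symm
  rw [h2]
  exact v.asIdeal.add_mem (v.asIdeal.mul_mem_left _ h) (v.asIdeal.mul_mem_left _ (Ideal.absNorm_mem _))

/-- only finitely many places have a norm in `v` -/
theorem fin_norm (v : HeightOneSpectrum (𝓞 K)) :
    {lam : HeightOneSpectrum (𝓞 E) |
      ((Ideal.absNorm lam.asIdeal : ℕ) : 𝓞 K) ∈ v.asIdeal}.Finite := by
  have h0 : ((Ideal.absNorm v.asIdeal : ℕ) : 𝓞 E) ≠ 0 := by
    rw [Nat.cast_ne_zero, ne_eq, Ideal.absNorm_eq_zero_iff]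
    exact v.ne_bot
  exact (Pool.Agent.H500.Kum.fin_mem h0).subset fun lam hlam => norm_mem_symm hlam

open Classical in
/-- the character with a kernel of index two -/
theorem exists_char {G : Type} [Group G] (U : Subgroup G) (hU : U.index = 2) :
    ∃ θ : G →* ℂˣ, θ.ker = U ∧ ∀ σ, θ σ ^ 2 = 1 := by
  have hne : (-1 : ℂˣ) ≠ 1 := by
    intro h
    have h1 := congrArg (Units.val : ℂˣ → ℂ) h
    rw [Units.val_neg, Units.val_one] at h1
    norm_num at h1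
  refine ⟨{ toFun := fun g => if g ∈ U then 1 else -1
            map_one' := if_pos U.one_mem
            map_mul' := ?_ }, ?_, ?_⟩
  · intro a b
    have h1 := Subgroup.mul_mem_iff_of_index_two hU (a := a) (b := b)
    by_cases ha : a ∈ U <;> by_cases hb : b ∈ U
    · rw [if_pos (h1.2 (by simp [ha, hb])), if_pos ha, if_pos hb, one_mul]
    · rw [if_neg (fun h2 => by have := h1.1 h2; simp [ha, hb] at this), if_pos ha, if_neg hb, one_mul]
    · rw [if_neg (fun h2 => by have := h1.1 h2; simp [ha, hb] at this), if_neg ha, if_pos hb, mul_one]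
    · rw [if_pos (h1.2 (by simp [ha, hb])), if_neg ha, if_neg hb, neg_mul_neg, one_mul]
  · ext g
    rw [MonoidHom.mem_ker]
    change (if g ∈ U then (1 : ℂˣ) else -1) = 1 ↔ g ∈ U
    by_cases hg : g ∈ U
    · simp [hg]
    · simp [hg, hne]
  · intro g
    change (if g ∈ U then (1 : ℂˣ) else -1) ^ 2 = 1
    split_ifs
    · rw [one_pow]
    · rw [neg_one_sq]

end

/-- **S_Dih** -/
theorem main : Pool.Agent.H500.R2.S_Cyc → Pool.Agent.H500.R2.S_FinChar →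
    Pool.Agent.H500.R2.S_Dih := by
  intro hCyc hFC K E _ _ _ _ hKE N a hN hV Λ hΛ hU
  set P : HeightOneSpectrum (𝓞 E) → Subgroup (GK K) → Prop := fun lam U =>
    ∀ v : HeightOneSpectrum (𝓞 K), (N : 𝓞 K) ∉ v.asIdeal →
      ((Ideal.absNorm lam.asIdeal : ℕ) : 𝓞 K) ∉ v.asIdeal → ∀ σ, IsFrob v σ → σ ∉ U →
      a v ∈ lam.asIdeal with hP
  set W : HeightOneSpectrum (𝓞 E) → (GK K →* ℂˣ) → Prop := fun lam θ =>
    IsOpen (θ.ker : Set (GK K)) ∧ (∀ σ, θ σ ^ 2 = 1) ∧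
      UnrOut (N * Ideal.absNorm lam.asIdeal) θ.ker ∧ θ.ker.index = 2 ∧ P lam θ.ker with hW
  have h1 := hCyc K E hKE N 2 hN (by norm_num)
    {v : HeightOneSpectrum (𝓞 K) | (N : 𝓞 K) ∉ v.asIdeal ∧ SpC E v ∧ a v ≠ 0} hV
    (fun v hv => ⟨hv.1, hv.2.1⟩) W (fun lam θ h => ⟨h.1, h.2.1, h.2.2.1⟩) (by
      intro v hv
      refine ((Pool.Agent.H500.Kum.fin_mem hv.2.2).union (fin_norm (E := E) v)).subset ?_
      rintro lam ⟨θ, hθ, σ, hσ, hne⟩
      by_cases hl : ((Ideal.absNorm lam.asIdeal : ℕ) : 𝓞 K) ∈ v.asIdeal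
      · exact Or.inr hl
      · left
        exact hθ.2.2.2.2 v hv.1 hl σ hσ (fun h => hne (MonoidHom.mem_ker.1 h)))
  have h2 := (hΛ.diff h1).infinite
  set S0 : Set (HeightOneSpectrum (𝓞 E)) :=
    {lam | Λ lam ∧ ¬ ∃ θ, W lam θ ∧ ¬ UnrOut N θ.ker} with hS0
  have hfin := hFC K N 2 hN (by norm_num)
  set F : Set (GK K →* ℂˣ) :=
    {θ : GK K →* ℂˣ | IsOpen (θ.ker : Set (GK K)) ∧ (∀ σ, θ σ ^ 2 = 1) ∧ UnrOut N θ.ker} with hF
  have h3 : ∃ θ ∈ F, {lam | W lam θ}.Infinite := by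
    by_contra hno
    push Not at hno
    apply h2
    refine (hfin.biUnion (t := fun θ => {lam | W lam θ}) (fun θ hθ => hno θ hθ)).subset ?_
    rintro lam ⟨hlam1, hlam2⟩
    obtain ⟨U, hU1, hU2, hU3, hU4⟩ := hU lam hlam1
    obtain ⟨θ, hθ1, hθ2⟩ := exists_char U hU2
    have hWθ : W lam θ := by
      refine ⟨?_, hθ2, ?_, ?_, ?_⟩
      · rw [hθ1]; exact hU1
      · rw [hθ1]; exact hU3
      · rw [hθ1]; exact hU2
      · rw [hθ1]; exact hU4
    have hun : UnrOut N θ.ker := by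
      by_contra hn
      exact hlam2 ⟨θ, hWθ, hn⟩
    exact Set.mem_biUnion (show θ ∈ F from ⟨hWθ.1, hWθ.2.1, hun⟩) hWθ
  obtain ⟨θ, hθF, hinf⟩ := h3
  obtain ⟨lam0, hlam0⟩ := hinf.nonempty
  refine ⟨θ.ker, hθF.1, hlam0.2.2.2.1, hθF.2.2, ?_⟩
  intro v hv σ hσ hσU
  refine Pool.Agent.H500.HC.zero_of_inf (hinf.sdiff (fin_norm (E := E) v)) ?_
  rintro lam ⟨hl1, hl2⟩
  exact hl1.2.2.2.2 v hv hl2 σ hσ hσU

end Pool.Agent.H297.R2.Dih
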